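import Mathlib

/-!
# A wavevector of the Rossby resonance set far above the proposed zonal bound

The conjectured bound says that every `(a, b)` in the wavevector set with `a, b > 0` is `(800, 4)`
or satisfies `a < √3 b ^ 4`.  We exhibit the wavevectors `(334508643, 34)` and
`(153720320, 52)`, which violate it: `a > 250 b ^ 4` for the first one and
`a > 21 b ^ 4` for the second one.
They come from the parametrisation of the resonance surface by pairs of Gaussian integers.
-/

namespace Pool.Agent.Results.MP_ab166a_nt.LargeZonal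

/-- The cleared-denominator resonance equation of the problem. -/
def Resonant (a b x y : ℤ) : Prop :=
  x * (a ^ 2 + b ^ 2) * (a ^ 2 + b ^ 2 - 2 * a * x - 2 * b * y) =
    a * (x ^ 2 + y ^ 2) * (x ^ 2 + y ^ 2 - 2 * a * x - 2 * b * y)

/-- The wavevector set of the problem. -/
def Lam : Set (ℤ × ℤ) :=
  {v | ∃ x y : ℤ, Resonant v.1 v.2 x y ∧ v.1 * x * (v.1 - x) ≠ 0}

theorem mem_first : ((334508643, 34) : ℤ × ℤ) ∈ Lam := by
  refine ⟨10148112, 149944574, ?_, ?_⟩
  · simp only [Resonant]
    norm_num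
  · norm_num

theorem mem_second : ((153720320, 52) : ℤ × ℤ) ∈ Lam := by
  refine ⟨98422695, 129549398, ?_, ?_⟩
  · simp only [Resonant]
    norm_num
  · norm_num

theorem sqrt_three_lt : Real.sqrt 3 < 2 := by
  rw [show (2 : ℝ) = Real.sqrt 4 by
    rw [show (4 : ℝ) = 2 ^ 2 by norm_num]
    rw [Real.sqrt_sq (by norm_num)]]
  exact Real.sqrt_lt_sqrt (by norm_num) (by norm_num)

/-- The proposed bound on the zonal wavenumber fails: the negated form of the question holds, and
two explicit wavevectors violate the bound, one of them with `a > 250 b ^ 4`. -/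
theorem result :
    (∃ a b : ℤ, (a, b) ∈ Lam ∧ 0 < a ∧ 0 < b ∧ (a, b) ≠ (800, 4) ∧
      Real.sqrt 3 * (b : ℝ) ^ 4 ≤ (a : ℝ)) ∧
    ((334508643, 34) : ℤ × ℤ) ∈ Lam ∧ 250 * 34 ^ 4 < (334508643 : ℤ) ∧
    ((153720320, 52) : ℤ × ℤ) ∈ Lam ∧ 21 * 52 ^ 4 < (153720320 : ℤ) := by
  refine ⟨⟨334508643, 34, mem_first, by norm_num, by norm_num, ?_, ?_⟩, mem_first, by norm_num,
    mem_second, by norm_num⟩
  · intro h
    have := congrArg Prod.fst h
    norm_num at this
  · have h := sqrt_three_lt
    have h2 : Real.sqrt 3 * ((34 : ℤ) : ℝ) ^ 4 ≤ 2 * ((34 : ℤ) : ℝ) ^ 4 := by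
      apply mul_le_mul_of_nonneg_right h.le
      positivity
    refine h2.trans ?_
    norm_num

end Pool.Agent.Results.MP_ab166a_nt.LargeZonal
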